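import Mathlib

namespace Pool.Agent.Lib.MP_9ea9ae_an

/-- `X` is a Corson compact space: it is compact, and homeomorphic to a subset of the
`Σ`-product `Σ(Γ) = {x ∈ ℝ^Γ : {γ : x γ ≠ 0} is countable}` (product topology) for some `Γ`. -/
def IsCorson (X : Type) [TopologicalSpace X] : Prop :=
  CompactSpace X ∧ ∃ (Γ : Type) (φ : X → Γ → ℝ),
    Topology.IsEmbedding φ ∧ ∀ x, {γ | φ x γ ≠ 0}.Countable

/-- The statement (*) of Argyros, Mercourakis and Negrepontis: if `L` is Corson compact, `K` is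
compact Hausdorff and `C(K)` is isomorphic to a subspace of `C(L)` (there is a bounded linear
`T : C(K) → C(L)` which is bounded below), then `K` is Corson compact. -/
def AMNStatement : Prop :=
  ∀ (L K : Type) [TopologicalSpace L] [CompactSpace L] [T2Space L]
    [TopologicalSpace K] [CompactSpace K] [T2Space K],
    IsCorson L →
    (∃ (T : C(K, ℝ) →L[ℝ] C(L, ℝ)) (c : ℝ), 0 < c ∧ ∀ f : C(K, ℝ), c * ‖f‖ ≤ ‖T f‖) →
    IsCorson K

end Pool.Agent.Lib.MP_9ea9ae_an
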