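import Mathlib
import Pool.Agent.Lib.MP_9ea9ae_an.Defs

open Set Filter Topology

namespace Pool.Agent.Lib.MP_9ea9ae_an

/-- Legal nodes: the letter added to a node of length `n` is `< 2^(n+1)`. -/
def Legal : List ℕ → Prop
  | [] => True
  | (a :: s) => a < 2 ^ (s.length + 1) ∧ Legal s

/-- The tree. -/
abbrev T : Type := {s : List ℕ // Legal s}

/-- level of a node -/
def lev (s : T) : ℕ := s.1.length

/-- The `j`-th child of a node. -/
def child (s : T) (j : ℕ) : T :=
  ⟨(j % 2 ^ (s.1.length + 1)) :: s.1, Nat.mod_lt _ (by positivity), s.2⟩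

@[simp] lemma lev_child (s : T) (j : ℕ) : lev (child s j) = lev s + 1 := rfl

/-- One step averaging operator over the children. -/
noncomputable def A : (T → ℝ) →ₗ[ℝ] (T → ℝ) where
  toFun g s := (∑ j ∈ Finset.range (2 ^ (lev s + 1)), g (child s j)) / 2 ^ (lev s + 1)
  map_add' g h := by
    funext s
    simp only [Pi.add_apply, Finset.sum_add_distrib, add_div]
  map_smul' c g := by
    funext s
    simp only [Pi.smul_apply, smul_eq_mul, RingHom.id_apply, ← Finset.mul_sum, mul_div_assoc]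

lemma A_apply (g : T → ℝ) (s : T) :
    A g s = (∑ j ∈ Finset.range (2 ^ (lev s + 1)), g (child s j)) / 2 ^ (lev s + 1) := rfl

lemma A_mono {g h : T → ℝ} {s : T} (H : ∀ j, g (child s j) ≤ h (child s j)) :
    A g s ≤ A h s := by
  rw [A_apply, A_apply]
  gcongr with j hj
  exact H j

lemma A_const (c : ℝ) (s : T) : A (fun _ => c) s = c := by
  rw [A_apply]
  simp

lemma A_pow_succ (g : T → ℝ) (m : ℕ) (s : T) : (A ^ (m + 1)) g s = A ((A ^ m) g) s := by
  rw [pow_succ']; rfl

lemma A_pow_const (c : ℝ) (m : ℕ) (s : T) : (A ^ m) (fun _ => c) s = c := by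
  induction m generalizing s with
  | zero => simp
  | succ m ih =>
    rw [A_pow_succ]
    have : (A ^ m) (fun _ => c) = fun _ => c := funext ih
    rw [this, A_const]

/-- Value of `A^m g` at `s` is bounded as soon as `g` is bounded on deep nodes. -/
lemma A_pow_le {g : T → ℝ} {c : ℝ} {n : ℕ} (H : ∀ t, n ≤ lev t → g t ≤ c) :
    ∀ (m : ℕ) (s : T), n ≤ lev s + m → (A ^ m) g s ≤ c := by
  intro m
  induction m with
  | zero => intro s hs; simpa using H s (by simpa using hs)
  | succ m ih =>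
    intro s hs
    rw [A_pow_succ]
    refine (A_mono (h := fun _ => c) fun j => ?_).trans (A_const c s).le
    exact ih _ (by rw [lev_child]; omega)

lemma A_pow_mono {g h : T → ℝ} (H : ∀ t, g t ≤ h t) (m : ℕ) (s : T) :
    (A ^ m) g s ≤ (A ^ m) h s := by
  induction m generalizing s with
  | zero => simpa using H s
  | succ m ih =>
    rw [A_pow_succ, A_pow_succ]
    exact A_mono fun j => ih _

lemma abs_A_pow_le (g : T → ℝ) (m : ℕ) (s : T) :
    |(A ^ m) g s| ≤ (A ^ m) (fun t => |g t|) s := by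
  rw [abs_le]
  constructor
  · have h1 : (A ^ m) (fun t => - |g t|) s ≤ (A ^ m) g s :=
      A_pow_mono (fun t => neg_abs_le _) m s
    have h2 : (A ^ m) (fun t => - |g t|) s = - (A ^ m) (fun t => |g t|) s := by
      have : (fun t => - |g t|) = - (fun t => |g t|) := rfl
      rw [this, map_neg]; rfl
    linarith
  · exact A_pow_mono (fun t => le_abs_self _) m s

/-- Property (Q): deep nodes see almost constant functions, in the mean. -/
def Q (g : T → ℝ) : Prop :=
  ∀ ε > 0, ∃ N, ∀ s : T, N ≤ lev s → ∀ m, (A ^ m) (fun t => |g t - g s|) s ≤ ε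

lemma Q_of_eventually_const {g : T → ℝ} (H : ∃ N, ∀ s, N ≤ lev s → ∀ j, g (child s j) = g s) :
    Q g := by
  obtain ⟨N, hN⟩ := H
  intro ε hε
  refine ⟨N, fun s hs m => ?_⟩
  suffices h : ∀ (m : ℕ) (t : T), N ≤ lev t → (A ^ m) (fun u => |g u - g t|) t ≤ 0 by
    exact (h m s hs).trans hε.le
  intro m
  induction m with
  | zero => intro t _; simp
  | succ m ih =>
    intro t ht
    rw [A_pow_succ]
    refine (A_mono (h := fun _ => 0) fun j => ?_).trans (A_const 0 t).le
    have := ih (child t j) (by rw [lev_child]; omega)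
    rw [hN t ht j] at this
    exact this

lemma Q_of_tendsto {g : T → ℝ} (H : ∀ ε > 0, ∃ N, ∀ s, N ≤ lev s → |g s| ≤ ε) : Q g := by
  intro ε hε
  obtain ⟨N, hN⟩ := H (ε / 2) (half_pos hε)
  refine ⟨N, fun s hs m => ?_⟩
  refine A_pow_le (n := N) (fun t ht => ?_) m s (by omega)
  have h1 := hN t ht
  have h2 := hN s hs
  calc |g t - g s| ≤ |g t| + |g s| := abs_sub _ _
    _ ≤ ε := by linarith

lemma Q_const (c : ℝ) : Q (fun _ => c) :=
  Q_of_eventually_const ⟨0, fun _ _ _ => rfl⟩

lemma Q_add {g h : T → ℝ} (hg : Q g) (hh : Q h) : Q (fun t => g t + h t) := by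
  intro ε hε
  obtain ⟨N, hN⟩ := hg (ε / 2) (half_pos hε)
  obtain ⟨M, hM⟩ := hh (ε / 2) (half_pos hε)
  refine ⟨max N M, fun s hs m => ?_⟩
  have h1 := hN s (le_trans (le_max_left _ _) hs) m
  have h2 := hM s (le_trans (le_max_right _ _) hs) m
  have h3 : (A ^ m) (fun t => |g t + h t - (g s + h s)|) s ≤
      (A ^ m) ((fun t => |g t - g s|) + (fun t => |h t - h s|)) s := by
    refine A_pow_mono (fun t => ?_) m s
    have : g t + h t - (g s + h s) = (g t - g s) + (h t - h s) := by ring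
    rw [this]
    exact abs_add_le _ _
  rw [map_add] at h3
  have h4 : ((A ^ m) (fun t => |g t - g s|) + (A ^ m) (fun t => |h t - h s|)) s =
    (A ^ m) (fun t => |g t - g s|) s + (A ^ m) (fun t => |h t - h s|) s := rfl
  rw [h4] at h3
  linarith

lemma Q_mul {g h : T → ℝ} {C : ℝ} (hg : Q g) (hh : Q h) (bg : ∀ t, |g t| ≤ C)
    (bh : ∀ t, |h t| ≤ C) : Q (fun t => g t * h t) := by
  have hC : 0 ≤ C := (abs_nonneg _).trans (bg ⟨[], trivial⟩)
  intro ε hε
  have hε' : 0 < ε / (2 * (C + 1)) := by positivity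
  obtain ⟨N, hN⟩ := hg _ hε'
  obtain ⟨M, hM⟩ := hh _ hε'
  refine ⟨max N M, fun s hs m => ?_⟩
  have h1 := hN s (le_trans (le_max_left _ _) hs) m
  have h2 := hM s (le_trans (le_max_right _ _) hs) m
  have h3 : (A ^ m) (fun t => |g t * h t - g s * h s|) s ≤
      (A ^ m) (C • (fun t => |g t - g s|) + C • (fun t => |h t - h s|)) s := by
    refine A_pow_mono (fun t => ?_) m s
    have : g t * h t - g s * h s = (g t - g s) * h s + (h t - h s) * g t := by ring
    rw [this]
    refine (abs_add_le _ _).trans ?_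
    rw [abs_mul, abs_mul]
    simp only [Pi.add_apply, Pi.smul_apply, smul_eq_mul]
    have a1 := mul_le_mul_of_nonneg_left (bh s) (abs_nonneg (g t - g s))
    have a2 := mul_le_mul_of_nonneg_left (bg t) (abs_nonneg (h t - h s))
    linarith
  rw [map_add, map_smul, map_smul] at h3
  have h4 : (C • (A ^ m) (fun t => |g t - g s|) + C • (A ^ m) (fun t => |h t - h s|)) s =
    C * (A ^ m) (fun t => |g t - g s|) s + C * (A ^ m) (fun t => |h t - h s|) s := rfl
  rw [h4] at h3
  have h5 : C * (ε / (2 * (C + 1))) ≤ ε / 2 := by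
    rw [← mul_div_assoc, div_le_div_iff₀ (by positivity) (by positivity)]
    nlinarith
  have h6 := mul_le_mul_of_nonneg_left h1 hC
  have h7 := mul_le_mul_of_nonneg_left h2 hC
  linarith

/-- (Q) is closed under uniform limits. -/
lemma Q_of_approx {g : T → ℝ} (H : ∀ ε > 0, ∃ h : T → ℝ, Q h ∧ ∀ t, |g t - h t| ≤ ε) : Q g := by
  intro ε hε
  obtain ⟨h, hh, hgh⟩ := H (ε / 3) (by positivity)
  obtain ⟨N, hN⟩ := hh (ε / 3) (by positivity)
  refine ⟨N, fun s hs m => ?_⟩
  have h3 : (A ^ m) (fun t => |g t - g s|) s ≤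
      (A ^ m) ((fun t => |h t - h s|) + (fun _ => 2 * (ε / 3))) s := by
    refine A_pow_mono (fun t => ?_) m s
    simp only [Pi.add_apply]
    have : g t - g s = (h t - h s) + ((g t - h t) - (g s - h s)) := by ring
    rw [this]
    refine (abs_add_le _ _).trans ?_
    have a1 := hgh t
    have a2 := hgh s
    have a3 := abs_sub (g t - h t) (g s - h s)
    linarith
  rw [map_add] at h3
  have h4 : ((A ^ m) (fun t => |h t - h s|) + (A ^ m) (fun _ => 2 * (ε / 3))) s =
    (A ^ m) (fun t => |h t - h s|) s + (A ^ m) (fun _ => 2 * (ε / 3)) s := rfl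
  rw [h4, A_pow_const] at h3
  have := hN s hs m
  linarith

end Pool.Agent.Lib.MP_9ea9ae_an
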