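import Mathlib
import Pool.Agent.Lib.MP_9ea9ae_an.Tree

open Set Filter Topology

namespace Pool.Agent.Lib.MP_9ea9ae_an

/-- A node avoids `d` if none of its letters agrees with `d`. -/
def Avoids (d : ℕ → ℕ) : List ℕ → Prop
  | [] => True
  | (a :: s) => a ≠ d s.length ∧ Avoids d s

lemma Avoids.of_suffix {d : ℕ → ℕ} {t s : List ℕ} (h : t <:+ s) (hs : Avoids d s) :
    Avoids d t := by
  induction s with
  | nil =>
    rw [List.suffix_nil] at h
    subst h; trivial
  | cons a s ih =>
    rw [List.suffix_cons_iff] at h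
    rcases h with rfl | h
    · exact hs
    · exact ih h hs.2

/-- Averages of the indicator of the complement of a pruned tree. -/
lemma A_pow_notAvoids_le (d : ℕ → ℕ) (u : T → ℝ) (hu0 : ∀ t : T, Avoids d t.1 → u t = 0)
    (hu1 : ∀ t, u t ≤ 1) (m : ℕ) (s : T) (hs : Avoids d s.1) :
    (A ^ m) u s ≤ 1 / 2 ^ lev s := by
  induction m generalizing s with
  | zero =>
    simp only [pow_zero, Module.End.one_apply]
    rw [hu0 s hs]; positivity
  | succ m ih =>
    rw [A_pow_succ, A_apply, div_le_div_iff₀ (by positivity) (by positivity), one_mul]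
    have h1 : ∀ j ∈ Finset.range (2 ^ (lev s + 1)), (A ^ m) u (child s j) ≤
        1 / 2 ^ (lev s + 1) + (if j = d (lev s) then (1 : ℝ) else 0) := by
      intro j hj
      split_ifs with hjd
      · have : (A ^ m) u (child s j) ≤ 1 :=
          A_pow_le (n := 0) (fun t _ => hu1 t) m _ (by omega)
        have h0 : (0 : ℝ) ≤ 1 / 2 ^ (lev s + 1) := by positivity
        linarith
      · rw [add_zero]
        refine ih (child s j) ⟨?_, hs⟩
        have hj' : j < 2 ^ (s.1.length + 1) := Finset.mem_range.mp hj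
        rw [Nat.mod_eq_of_lt hj']
        exact hjd
    have h2 := Finset.sum_le_sum h1
    rw [Finset.sum_add_distrib, Finset.sum_const, Finset.card_range, Finset.sum_ite_eq'] at h2
    have h3 : (if d (lev s) ∈ Finset.range (2 ^ (lev s + 1)) then (1 : ℝ) else 0) ≤ 1 := by
      split_ifs <;> norm_num
    have h4 : (2 ^ (lev s + 1)) • (1 / 2 ^ (lev s + 1) : ℝ) = 1 := by
      rw [nsmul_eq_mul]; push_cast
      field_simp
    rw [h4] at h2
    have h5 : ∑ j ∈ Finset.range (2 ^ (lev s + 1)), (A ^ m) u (child s j) ≤ 2 := by linarith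
    calc (∑ j ∈ Finset.range (2 ^ (lev s + 1)), (A ^ m) u (child s j)) * 2 ^ lev s
        ≤ 2 * 2 ^ lev s := by gcongr
      _ = 2 ^ (lev s + 1) := by ring

lemma A_pow_eq_zero_of_not_avoids (d : ℕ → ℕ) (u : T → ℝ)
    (hu0 : ∀ t : T, ¬ Avoids d t.1 → u t = 0) (m : ℕ) (s : T) (hs : ¬ Avoids d s.1) :
    (A ^ m) u s = 0 := by
  induction m generalizing s with
  | zero => simpa using hu0 s hs
  | succ m ih =>
    rw [A_pow_succ, A_apply]
    rw [Finset.sum_eq_zero, zero_div]
    intro j _
    exact ih _ fun h => hs h.2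

open Classical in
lemma Q_avoids (d : ℕ → ℕ) : Q (fun s : T => if Avoids d s.1 then (1 : ℝ) else 0) := by
  intro ε hε
  obtain ⟨N, hN⟩ := exists_pow_lt_of_lt_one hε (by norm_num : (1 / 2 : ℝ) < 1)
  refine ⟨N, fun s hs m => ?_⟩
  by_cases h : Avoids d s.1
  · have := A_pow_notAvoids_le d
      (fun t : T => |(if Avoids d t.1 then (1 : ℝ) else 0) - (if Avoids d s.1 then 1 else 0)|)
      (fun t ht => by simp [h, ht]) (fun t => by simp only [h, if_true]; split_ifs <;> norm_num)
      m s h
    refine this.trans ?_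
    have h1 : (1 : ℝ) / 2 ^ lev s ≤ 1 / 2 ^ N := by
      gcongr
      norm_num
    have h2 : (1 : ℝ) / 2 ^ N = (1 / 2) ^ N := by rw [one_div_pow]
    linarith
  · have := A_pow_eq_zero_of_not_avoids d
      (fun t : T => |(if Avoids d t.1 then (1 : ℝ) else 0) - (if Avoids d s.1 then 1 else 0)|)
      (fun t ht => by simp [h, ht]) m s h
    exact this.le.trans hε.le

/-- The set of coordinates. -/
abbrev Om (I : Type) : Type := I ⊕ T ⊕ T

variable {I : Type} (d : I → ℕ → ℕ)

open Classical in
/-- The points coming from the nodes. -/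
noncomputable def w (s : T) : Om I → ℝ
  | Sum.inl i => if Avoids (d i) s.1 then 1 else 0
  | Sum.inr (Sum.inl t) => if t.1 <:+ s.1 then 1 else 0
  | Sum.inr (Sum.inr t) => if s = t then 1 else 0

/-- The compact space `K`. -/
def KSet : Set (Om I → ℝ) := closure (range (w d))

lemma KSet_sub : KSet d ⊆ Set.pi univ (fun _ => ({0, 1} : Set ℝ)) := by
  refine closure_minimal ?_ (isClosed_set_pi fun _ _ => (Set.toFinite _).isClosed)
  rintro _ ⟨s, rfl⟩ o _
  rcases o with i | t | t <;> simp only [w] <;> split_ifs <;> simp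

lemma KSet_val {k : Om I → ℝ} (hk : k ∈ KSet d) (o : Om I) : k o = 0 ∨ k o = 1 := by
  have := KSet_sub d hk o (mem_univ o)
  simpa using this

lemma isCompact_KSet : IsCompact (KSet d) := by
  have h : IsCompact (Set.pi univ (fun _ : Om I => ({0, 1} : Set ℝ))) :=
    isCompact_univ_pi fun _ => (Set.toFinite _).isCompact
  exact h.of_isClosed_subset isClosed_closure (KSet_sub d)

instance : CompactSpace (KSet d) := isCompact_iff_compactSpace.mp (isCompact_KSet d)

/-- node as a point of `K` -/
noncomputable def wK (s : T) : KSet d := ⟨w d s, subset_closure ⟨s, rfl⟩⟩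

lemma denseRange_wK : DenseRange (wK d) := by
  intro k
  rw [closure_subtype]
  have : (Subtype.val '' range (wK d)) = range (w d) := by
    rw [← range_comp]; rfl
  rw [this]
  exact k.2

/-- coordinate function -/
def coord (o : Om I) : C(KSet d, ℝ) := ⟨fun k => k.1 o, (continuous_apply o).comp continuous_subtype_val⟩

lemma finite_lev_lt (N : ℕ) : {s : T | lev s < N}.Finite := by
  have h : ∀ n, {s : List ℕ | Legal s ∧ s.length = n}.Finite := by
    intro n
    induction n with
    | zero =>
      refine (Set.finite_singleton ([] : List ℕ)).subset ?_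
      rintro s ⟨_, hs⟩
      simpa using hs
    | succ n ih =>
      refine ((Set.finite_Iio (2 ^ (n + 1))).image2 List.cons ih).subset ?_
      rintro s ⟨hs, hl⟩
      match s, hs, hl with
      | (a :: s), hs, hl =>
        have hl' : s.length = n := by simpa using hl
        have hs1 : a < 2 ^ (s.length + 1) := hs.1
        rw [hl'] at hs1
        exact ⟨a, hs1, s, ⟨hs.2, hl'⟩, rfl⟩
  have h2 : {s : List ℕ | Legal s ∧ s.length < N}.Finite := by
    have : {s : List ℕ | Legal s ∧ s.length < N} ⊆
        ⋃ n ∈ Set.Iio N, {s : List ℕ | Legal s ∧ s.length = n} := by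
      rintro s ⟨hs, hl⟩
      simp only [mem_iUnion]
      exact ⟨s.length, hl, hs, rfl⟩
    exact ((Set.finite_Iio N).biUnion fun n _ => h n).subset this
  refine Set.Finite.of_finite_image (f := Subtype.val) (h2.subset ?_) Subtype.val_injective.injOn
  rintro _ ⟨s, hs, rfl⟩
  exact ⟨s.2, hs⟩

lemma Q_coord (o : Om I) : Q (fun s => coord d o (wK d s)) := by
  rcases o with i | t | t
  · exact Q_avoids (d i)
  · refine Q_of_eventually_const ⟨lev t, fun s hs j => ?_⟩
    change w d (child s j) (Sum.inr (Sum.inl t)) = w d s (Sum.inr (Sum.inl t))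
    simp only [w]
    congr 1
    simp only [child, List.suffix_cons_iff, eq_iff_iff]
    constructor
    · rintro (h | h)
      · exfalso
        have h1 : t.1.length = s.1.length + 1 := by rw [h]; rfl
        have h2 : t.1.length ≤ s.1.length := hs
        omega
      · exact h
    · exact Or.inr
  · refine Q_of_tendsto fun ε hε => ⟨lev t + 1, fun s hs => ?_⟩
    change |w d s (Sum.inr (Sum.inr t))| ≤ ε
    have : s ≠ t := by rintro rfl; omega
    simp only [w, if_neg this, abs_zero]
    exact hε.le

lemma bdd_node (f : C(KSet d, ℝ)) (s : T) : |f (wK d s)| ≤ ‖f‖ := f.norm_coe_le_norm _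

/-- The algebra of functions satisfying (Q). -/
noncomputable def QAlg : Subalgebra ℝ C(KSet d, ℝ) where
  carrier := {f | Q (fun s => f (wK d s))}
  mul_mem' {f g} hf hg := Q_mul (C := max ‖f‖ ‖g‖) hf hg
    (fun t => (bdd_node d f t).trans (le_max_left _ _))
    (fun t => (bdd_node d g t).trans (le_max_right _ _))
  add_mem' {_ _} hf hg := Q_add hf hg
  algebraMap_mem' r := Q_const r

lemma Q_all (f : C(KSet d, ℝ)) : Q (fun s => f (wK d s)) := by
  have hsep : (QAlg d).SeparatesPoints := by
    intro x y hxy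
    have : ∃ o, x.1 o ≠ y.1 o := by
      by_contra h
      push Not at h
      exact hxy (Subtype.ext (funext h))
    obtain ⟨o, ho⟩ := this
    exact ⟨coord d o, ⟨coord d o, Q_coord d o, rfl⟩, ho⟩
  have htop := ContinuousMap.subalgebra_topologicalClosure_eq_top_of_separatesPoints (QAlg d) hsep
  have hf : f ∈ (QAlg d).topologicalClosure := by rw [htop]; trivial
  have hf' : f ∈ closure ((QAlg d : Subalgebra ℝ C(KSet d, ℝ)) : Set C(KSet d, ℝ)) := hf
  refine Q_of_approx fun ε hε => ?_
  obtain ⟨h, hh, hd⟩ := Metric.mem_closure_iff.mp hf' ε hε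
  refine ⟨_, hh, fun t => ?_⟩
  have := ContinuousMap.dist_apply_le_dist (f := f) (g := h) (wK d t)
  rw [Real.dist_eq] at this
  linarith

end Pool.Agent.Lib.MP_9ea9ae_an
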