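import Mathlib
import Pool.Agent.Lib.MP_9ea9ae_an.Space

open Set Filter Topology

namespace Pool.Agent.Lib.MP_9ea9ae_an

lemma A_pow_add_apply (g : T → ℝ) (n m : ℕ) (s : T) :
    (A ^ (n + m)) g s = (A ^ n) ((A ^ m) g) s := by
  rw [pow_add]; rfl

lemma abs_A_pow_sub_le (g : T → ℝ) (m : ℕ) (s : T) :
    |(A ^ m) g s - g s| ≤ (A ^ m) (fun t => |g t - g s|) s := by
  have h1 : (A ^ m) g s - g s = (A ^ m) (g - fun _ => g s) s := by
    rw [map_sub]
    change _ = (A ^ m) g s - (A ^ m) (fun _ => g s) s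
    rw [A_pow_const]
  rw [h1]
  exact abs_A_pow_le _ m s

/-- existence of the limit of averages -/
lemma exists_lim {g : T → ℝ} (hg : Q g) (s : T) :
    ∃ v, Tendsto (fun m => (A ^ m) g s) atTop (𝓝 v) := by
  apply cauchySeq_tendsto_of_complete
  rw [Metric.cauchySeq_iff']
  intro ε hε
  obtain ⟨N, hN⟩ := hg (ε / 2) (half_pos hε)
  refine ⟨N, fun n hn => ?_⟩
  obtain ⟨r, rfl⟩ := Nat.exists_eq_add_of_le hn
  rw [Real.dist_eq, A_pow_add_apply]
  have h1 : (A ^ N) ((A ^ r) g) s - (A ^ N) g s = (A ^ N) ((A ^ r) g - g) s := by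
    rw [map_sub]; rfl
  rw [h1]
  refine (abs_A_pow_le _ N s).trans_lt ?_
  have h2 : (A ^ N) (fun t => |((A ^ r) g - g) t|) s ≤ ε / 2 := by
    refine A_pow_le (n := N) (fun t ht => ?_) N s (by omega)
    exact (abs_A_pow_sub_le g r t).trans (hN t ht r)
  linarith

variable {I : Type} (d : I → ℕ → ℕ)

/-- the limit functional at the node `s` -/
noncomputable def nu (s : T) (f : C(KSet d, ℝ)) : ℝ := (exists_lim (Q_all d f) s).choose

lemma tendsto_nu (s : T) (f : C(KSet d, ℝ)) :
    Tendsto (fun m => (A ^ m) (fun t => f (wK d t)) s) atTop (𝓝 (nu d s f)) :=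
  (exists_lim (Q_all d f) s).choose_spec

lemma nu_add (s : T) (f g : C(KSet d, ℝ)) : nu d s (f + g) = nu d s f + nu d s g := by
  refine tendsto_nhds_unique (tendsto_nu d s (f + g)) ?_
  have h := (tendsto_nu d s f).add (tendsto_nu d s g)
  refine h.congr fun m => ?_
  have : (fun t => (f + g) (wK d t)) = (fun t => f (wK d t)) + (fun t => g (wK d t)) := rfl
  rw [this, map_add]; rfl

lemma nu_smul (s : T) (c : ℝ) (f : C(KSet d, ℝ)) : nu d s (c • f) = c * nu d s f := by
  refine tendsto_nhds_unique (tendsto_nu d s (c • f)) ?_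
  have h := (tendsto_nu d s f).const_mul c
  refine h.congr fun m => ?_
  have : (fun t => (c • f) (wK d t)) = c • (fun t => f (wK d t)) := rfl
  rw [this, map_smul]; rfl

lemma abs_nu_le {s : T} {f : C(KSet d, ℝ)} {c : ℝ} {n : ℕ}
    (H : ∀ t, n ≤ lev t → |f (wK d t)| ≤ c) : |nu d s f| ≤ c := by
  refine le_of_tendsto (tendsto_nu d s f).abs ?_
  filter_upwards [eventually_ge_atTop n] with m hm
  refine (abs_A_pow_le _ m s).trans ?_
  exact A_pow_le (n := n) H m s (by omega)

lemma abs_sub_nu_le (f : C(KSet d, ℝ)) {ε : ℝ} (hε : 0 < ε) :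
    ∃ N, ∀ s, N ≤ lev s → |f (wK d s) - nu d s f| ≤ ε := by
  obtain ⟨N, hN⟩ := Q_all d f ε hε
  refine ⟨N, fun s hs => ?_⟩
  have h1 : Tendsto (fun m => |f (wK d s) - (A ^ m) (fun t => f (wK d t)) s|) atTop
      (𝓝 |f (wK d s) - nu d s f|) := ((tendsto_const_nhds).sub (tendsto_nu d s f)).abs
  refine le_of_tendsto h1 (Eventually.of_forall fun m => ?_)
  rw [abs_sub_comm]
  exact (abs_A_pow_sub_le _ m s).trans (hN s hs m)

/-- The remainder `L`. -/
def LSet : Set (KSet d) := {k | ∀ t : T, k.1 (Sum.inr (Sum.inr t)) = 0}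

lemma isClosed_LSet : IsClosed (LSet d) := by
  have : LSet d = ⋂ t : T, {k | k.1 (Sum.inr (Sum.inr t)) = 0} := by
    ext k; simp [LSet]
  rw [this]
  exact isClosed_iInter fun t =>
    isClosed_eq ((continuous_apply _).comp continuous_subtype_val) continuous_const

instance : CompactSpace (LSet d) :=
  isCompact_iff_compactSpace.mp (isClosed_LSet d).isCompact

/-- A closed subset of `K` disjoint from the remainder contains only finitely many nodes. -/
lemma deep_of_bound (f : C(KSet d, ℝ)) {c : ℝ} (hc : ∀ l : LSet d, |f l.1| < c) :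
    ∃ n, ∀ t, n ≤ lev t → |f (wK d t)| ≤ c := by
  -- the set where `|f| ≥ c` is compact and disjoint from `L`
  set B : Set (KSet d) := {k | c ≤ |f k|} with hB
  have hBc : IsCompact B := (isClosed_le continuous_const f.continuous.abs).isCompact
  have hcov : B ⊆ ⋃ t : T, {k : KSet d | (1 / 2 : ℝ) < k.1 (Sum.inr (Sum.inr t))} := by
    intro k hk
    have hkL : k ∉ LSet d := fun h => absurd (hc ⟨k, h⟩) (not_lt.mpr hk)
    simp only [LSet, mem_ofPred_eq, not_forall] at hkL
    obtain ⟨t, ht⟩ := hkL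
    rw [mem_iUnion]
    refine ⟨t, ?_⟩
    rcases KSet_val d k.2 (Sum.inr (Sum.inr t)) with h | h
    · exact absurd h ht
    · simp only [mem_ofPred_eq, h]; norm_num
  obtain ⟨F, hF⟩ := hBc.elim_finite_subcover _ (fun t => by
    exact isOpen_lt continuous_const ((continuous_apply _).comp continuous_subtype_val)) hcov
  refine ⟨F.sup lev + 1, fun t ht => ?_⟩
  by_contra hlt
  push Not at hlt
  have hmem : wK d t ∈ B := hlt.le
  have := hF hmem
  simp only [mem_iUnion] at this
  obtain ⟨u, hu, hu2⟩ := this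
  have h3 : (1 / 2 : ℝ) < w d t (Sum.inr (Sum.inr u)) := hu2
  simp only [w] at h3
  split_ifs at h3 with h4
  · subst h4
    have := Finset.le_sup (f := lev) hu
    omega
  · norm_num at h3

lemma norm_le_of_nodes (f : C(KSet d, ℝ)) {C : ℝ} (hC : 0 ≤ C)
    (H : ∀ s, |f (wK d s)| ≤ C) : ‖f‖ ≤ C := by
  rw [ContinuousMap.norm_le _ hC]
  intro k
  have hcl : IsClosed {k : KSet d | |f k| ≤ C} := isClosed_le f.continuous.abs continuous_const
  have hsub : range (wK d) ⊆ {k : KSet d | |f k| ≤ C} := by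
    rintro _ ⟨s, rfl⟩; exact H s
  have := closure_minimal hsub hcl
  rw [(denseRange_wK d).closure_eq] at this
  exact this (mem_univ k)

instance : Infinite T := by
  refine Infinite.of_injective (fun n : ℕ => (⟨List.replicate n 0, ?_⟩ : T)) ?_
  · induction n with
    | zero => trivial
    | succ n ih => exact ⟨by positivity, ih⟩
  · intro a b h
    have := congrArg (fun x : T => x.1.length) h
    simpa using this

/-- an enumeration of the nodes -/
noncomputable def en : ℕ ≃ T := (nonempty_equiv_of_countable (α := ℕ) (β := T)).some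

lemma eventually_lev (N : ℕ) : ∀ᶠ n in atTop, N ≤ lev (en n) := by
  rw [← Nat.cofinite_eq_atTop, eventually_cofinite]
  have : {n | ¬ N ≤ lev (en n)} = en ⁻¹' {s | lev s < N} := by
    ext n; simp
  rw [this]
  exact (finite_lev_lt N).preimage en.injective.injOn

/-- the function part of the operator -/
noncomputable def opFun (f : C(KSet d, ℝ)) : LSet d ⊕ OnePoint ℕ → ℝ :=
  Sum.elim (fun l => f l.1) (fun p => p.elim 0 (fun n => f (wK d (en n)) - nu d (en n) f))

lemma continuous_opFun (f : C(KSet d, ℝ)) : Continuous (opFun d f) := by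
  refine Continuous.sumElim (f.continuous.comp continuous_subtype_val) ?_
  rw [OnePoint.continuous_iff_from_nat]
  change Tendsto (fun n : ℕ => f (wK d (en n)) - nu d (en n) f) atTop (𝓝 0)
  rw [Metric.tendsto_atTop']
  intro ε hε
  obtain ⟨N, hN⟩ := abs_sub_nu_le d f (half_pos hε)
  obtain ⟨M, hM⟩ := eventually_atTop.mp (eventually_lev N)
  refine ⟨M, fun n hn => ?_⟩
  rw [Real.dist_eq, sub_zero]
  have := hN _ (hM n hn.le)
  linarith

/-- The operator `C(K) → C(L ⊔ (ω+1))` as a linear map. -/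
noncomputable def opLin : C(KSet d, ℝ) →ₗ[ℝ] C(LSet d ⊕ OnePoint ℕ, ℝ) where
  toFun f := ⟨opFun d f, continuous_opFun d f⟩
  map_add' f g := by
    ext x
    rcases x with l | p
    · rfl
    · cases p using OnePoint.rec with
      | infty => simp [opFun]
      | coe n =>
        simp only [opFun, ContinuousMap.coe_mk, Sum.elim_inr, OnePoint.elim_some,
          ContinuousMap.add_apply, nu_add]
        ring
  map_smul' c f := by
    ext x
    rcases x with l | p
    · rfl
    · cases p using OnePoint.rec with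
      | infty => simp [opFun]
      | coe n =>
        simp only [opFun, ContinuousMap.coe_mk, Sum.elim_inr, OnePoint.elim_some,
          ContinuousMap.smul_apply, nu_smul, smul_eq_mul, RingHom.id_apply]
        ring

lemma opLin_inl (f : C(KSet d, ℝ)) (l : LSet d) : opLin d f (Sum.inl l) = f l.1 := rfl

lemma opLin_inr (f : C(KSet d, ℝ)) (n : ℕ) :
    opLin d f (Sum.inr (n : OnePoint ℕ)) = f (wK d (en n)) - nu d (en n) f := rfl

lemma opLin_bound (f : C(KSet d, ℝ)) : ‖opLin d f‖ ≤ 2 * ‖f‖ := by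
  rw [ContinuousMap.norm_le _ (by positivity)]
  rintro (l | p)
  · rw [opLin_inl]
    have := f.norm_coe_le_norm l.1
    have h0 := norm_nonneg f
    linarith
  · cases p using OnePoint.rec with
    | infty =>
      have : opLin d f (Sum.inr OnePoint.infty) = 0 := rfl
      rw [this, norm_zero]; positivity
    | coe n =>
      rw [opLin_inr, Real.norm_eq_abs]
      have h1 := bdd_node d f (en n)
      have h2 : |nu d (en n) f| ≤ ‖f‖ := abs_nu_le d (n := 0) fun t _ => bdd_node d f t
      have h3 := abs_sub (f (wK d (en n))) (nu d (en n) f)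
      linarith

/-- The operator as a continuous linear map. -/
noncomputable def op : C(KSet d, ℝ) →L[ℝ] C(LSet d ⊕ OnePoint ℕ, ℝ) :=
  (opLin d).mkContinuous 2 (opLin_bound d)

lemma op_lower (f : C(KSet d, ℝ)) : (1 / 2 : ℝ) * ‖f‖ ≤ ‖op d f‖ := by
  have hle : ‖f‖ ≤ 2 * ‖op d f‖ := by
    refine le_of_forall_pos_le_add fun ε hε => ?_
    refine norm_le_of_nodes d f (by positivity) fun s => ?_
    have h1 : ∀ l : LSet d, |f l.1| < ‖op d f‖ + ε := by
      intro l
      have : ‖op d f (Sum.inl l)‖ ≤ ‖op d f‖ := (op d f).norm_coe_le_norm _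
      have h2 : op d f (Sum.inl l) = f l.1 := rfl
      rw [h2, Real.norm_eq_abs] at this
      linarith
    obtain ⟨n, hn⟩ := deep_of_bound d f h1
    have h3 : |nu d s f| ≤ ‖op d f‖ + ε := abs_nu_le d hn
    have h4 : |f (wK d s) - nu d s f| ≤ ‖op d f‖ := by
      have : ‖op d f (Sum.inr ((en.symm s : ℕ) : OnePoint ℕ))‖ ≤ ‖op d f‖ :=
        (op d f).norm_coe_le_norm _
      have h2 : op d f (Sum.inr ((en.symm s : ℕ) : OnePoint ℕ)) =
          f (wK d (en (en.symm s))) - nu d (en (en.symm s)) f := rfl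
      rw [h2, Equiv.apply_symm_apply, Real.norm_eq_abs] at this
      exact this
    have h5 : |f (wK d s)| ≤ |f (wK d s) - nu d s f| + |nu d s f| := by
      have := abs_add_le (f (wK d s) - nu d s f) (nu d s f)
      simpa using this
    linarith
  linarith

end Pool.Agent.Lib.MP_9ea9ae_an
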