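import Mathlib
import Pool.Agent.Lib.MP_9ea9ae_an.Operator

open Set Filter Topology

namespace Pool.Agent.Lib.MP_9ea9ae_an

lemma isCorson_of_injective {X Γ : Type} [TopologicalSpace X] [CompactSpace X]
    (φ : X → Γ → ℝ) (hc : Continuous φ) (hi : Function.Injective φ)
    (hs : ∀ x, {γ | φ x γ ≠ 0}.Countable) : IsCorson X :=
  ⟨inferInstance, Γ, φ, (hc.isClosedEmbedding hi).isEmbedding, hs⟩

variable {I : Type} (d : I → ℕ → ℕ)

/-- open neighbourhoods of points of `K` contain nodes -/
lemma exists_node {U : Set (KSet d)} (hU : IsOpen U) (hne : U.Nonempty) :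
    ∃ s, wK d s ∈ U := by
  obtain ⟨x, hx⟩ := hne
  exact (denseRange_wK d).exists_mem_open hU ⟨x, hx⟩

lemma isOpen_coord_ne (o : Om I) : IsOpen {k : KSet d | k.1 o ≠ 0} := by
  have : IsClosed {k : KSet d | k.1 o = 0} :=
    isClosed_eq ((continuous_apply _).comp continuous_subtype_val) continuous_const
  exact this.isOpen_compl

lemma exists_cone (k : LSet d) (n : ℕ) :
    ∃ t : T, lev t = n ∧ k.1.1 (Sum.inr (Sum.inl t)) ≠ 0 := by
  by_contra hcon
  push Not at hcon
  -- closed set containing all nodes
  set F : Set (KSet d) := (⋃ t ∈ {t : T | lev t < n}, {k | k.1 (Sum.inr (Sum.inr t)) = 1}) ∪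
    (⋃ t ∈ {t : T | lev t < n + 1} ∩ {t | lev t = n}, {k | k.1 (Sum.inr (Sum.inl t)) = 1}) with hF
  have hFc : IsClosed F := by
    refine IsClosed.union ?_ ?_
    · exact (finite_lev_lt n).isClosed_biUnion fun t _ =>
        isClosed_eq ((continuous_apply _).comp continuous_subtype_val) continuous_const
    · exact ((finite_lev_lt (n + 1)).inter_of_left _).isClosed_biUnion fun t _ =>
        isClosed_eq ((continuous_apply _).comp continuous_subtype_val) continuous_const
  have hsub : range (wK d) ⊆ F := by
    rintro _ ⟨s, rfl⟩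
    by_cases hs : lev s < n
    · left
      simp only [mem_iUnion]
      refine ⟨s, hs, ?_⟩
      change w d s (Sum.inr (Sum.inr s)) = 1
      simp [w]
    · right
      push Not at hs
      simp only [mem_iUnion]
      -- the suffix of length n
      have hleg : ∀ (l : List ℕ), Legal l → ∀ m, m ≤ l.length →
          ∃ l', Legal l' ∧ l'.length = m ∧ l' <:+ l := by
        intro l
        induction l with
        | nil =>
          intro _ m hm
          have hm0 : m = 0 := by simpa using hm
          exact ⟨[], trivial, hm0.symm, List.suffix_refl _⟩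
        | cons a l ih =>
          intro hl m hm
          rcases Nat.lt_or_ge m (l.length + 1) with h | h
          · obtain ⟨l', h1, h2, h3⟩ := ih hl.2 m (by omega)
            exact ⟨l', h1, h2, h3.trans (List.suffix_cons a l)⟩
          · refine ⟨a :: l, hl, ?_, List.suffix_refl _⟩
            simp only [List.length_cons] at hm ⊢
            omega
      obtain ⟨l', h1, h2, h3⟩ := hleg s.1 s.2 n hs
      refine ⟨⟨l', h1⟩, ⟨?_, h2⟩, ?_⟩
      · change l'.length < n + 1
        omega
      · change w d s (Sum.inr (Sum.inl ⟨l', h1⟩)) = 1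
        simp only [w]
        rw [if_pos h3]
  have hk : k.1 ∈ F := by
    have := closure_minimal hsub hFc
    rw [(denseRange_wK d).closure_eq] at this
    exact this (mem_univ _)
  rcases hk with hk | hk
  · simp only [mem_iUnion] at hk
    obtain ⟨t, _, ht⟩ := hk
    have h0 : k.1.1 (Sum.inr (Sum.inr t)) = 0 := k.2 t
    have h1 : k.1.1 (Sum.inr (Sum.inr t)) = 1 := ht
    rw [h0] at h1; norm_num at h1
  · simp only [mem_iUnion] at hk
    obtain ⟨t, ht, ht1⟩ := hk
    have h1 : k.1.1 (Sum.inr (Sum.inl t)) = 1 := ht1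
    have h0 := hcon t ht.2
    rw [h0] at h1; norm_num at h1

lemma cone_suffix (k : KSet d) {t u : T} (ht : k.1 (Sum.inr (Sum.inl t)) ≠ 0)
    (hu : k.1 (Sum.inr (Sum.inl u)) ≠ 0) (h : lev t ≤ lev u) : t.1 <:+ u.1 := by
  obtain ⟨s, hs1, hs2⟩ := exists_node d ((isOpen_coord_ne d (Sum.inr (Sum.inl t))).inter
    (isOpen_coord_ne d (Sum.inr (Sum.inl u)))) ⟨k, ht, hu⟩
  have h1 : w d s (Sum.inr (Sum.inl t)) ≠ 0 := hs1
  have h2 : w d s (Sum.inr (Sum.inl u)) ≠ 0 := hs2
  simp only [w, ne_eq, ite_eq_right_iff, one_ne_zero, imp_false, not_not] at h1 h2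
  exact List.suffix_of_suffix_length_le h1 h2 h

lemma avoids_cone (k : KSet d) {t : T} {i : I} (ht : k.1 (Sum.inr (Sum.inl t)) ≠ 0)
    (hi : k.1 (Sum.inl i) ≠ 0) : Avoids (d i) t.1 := by
  obtain ⟨s, hs1, hs2⟩ := exists_node d ((isOpen_coord_ne d (Sum.inr (Sum.inl t))).inter
    (isOpen_coord_ne d (Sum.inl i))) ⟨k, ht, hi⟩
  have h1 : w d s (Sum.inr (Sum.inl t)) ≠ 0 := hs1
  have h2 : w d s (Sum.inl i) ≠ 0 := hs2
  simp only [w, ne_eq, ite_eq_right_iff, one_ne_zero, imp_false, not_not] at h1 h2
  exact h2.of_suffix h1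

/-- each point of the remainder determines a branch -/
lemma exists_branch (k : LSet d) : ∃ z : ℕ → ℕ, ∀ i, k.1.1 (Sum.inl i) ≠ 0 → ∀ j, d i j ≠ z j := by
  choose t ht1 ht2 using exists_cone d k
  refine ⟨fun n => ((t (n + 1)).1.head?).getD 0, fun i hi j => ?_⟩
  have h1 : Avoids (d i) (t (j + 1)).1 := avoids_cone d k.1 (ht2 _) hi
  have h2 : (t (j + 1)).1.length = j + 1 := ht1 (j + 1)
  match hl : (t (j + 1)).1 with
  | [] => rw [hl] at h2; simp at h2
  | (a :: l) =>
    rw [hl] at h1 h2
    have h3 : l.length = j := by simpa using h2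
    have h4 := h1.1
    rw [h3] at h4
    change d i j ≠ ((t (j + 1)).1.head?).getD 0
    rw [hl]
    simpa using h4.symm

/-- `L ⊔ (ω+1)` is Corson. -/
lemma isCorson_L (H : ∀ z : ℕ → ℕ, {i | ∀ j, d i j ≠ z j}.Countable) :
    IsCorson (LSet d ⊕ OnePoint ℕ) := by
  classical
  let φ : LSet d ⊕ OnePoint ℕ → (Om I ⊕ Unit → ℝ) :=
    Sum.elim (fun l => Sum.elim l.1.1 (fun _ => 0))
      (fun p => Sum.elim (fun _ => 0) (fun _ => 1 + p.elim 0 (fun n => 1 / ((n : ℝ) + 1))))
  refine isCorson_of_injective φ ?_ ?_ ?_
  · refine Continuous.sumElim ?_ ?_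
    · refine continuous_pi fun o => ?_
      rcases o with o | o
      · exact (continuous_apply o).comp (continuous_subtype_val.comp continuous_subtype_val)
      · exact continuous_const
    · refine continuous_pi fun o => ?_
      rcases o with o | o
      · exact continuous_const
      · refine continuous_const.add ?_
        rw [OnePoint.continuous_iff_from_nat]
        exact tendsto_one_div_add_atTop_nhds_zero_nat
  · intro x y hxy
    have h0 : ∀ p : OnePoint ℕ, (0 : ℝ) ≤ p.elim 0 (fun n => 1 / ((n : ℝ) + 1)) := by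
      intro p
      cases p using OnePoint.rec with
      | infty => simp
      | coe n => simp only [OnePoint.elim_some]; positivity
    rcases x with l | p <;> rcases y with l' | p'
    · congr 1
      apply Subtype.ext; apply Subtype.ext
      funext o
      exact congrFun hxy (Sum.inl o)
    · exfalso
      have := congrFun hxy (Sum.inr ())
      simp only [φ, Sum.elim_inl, Sum.elim_inr] at this
      have := h0 p'
      linarith
    · exfalso
      have := congrFun hxy (Sum.inr ())
      simp only [φ, Sum.elim_inl, Sum.elim_inr] at this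
      have := h0 p
      linarith
    · congr 1
      have h1 := congrFun hxy (Sum.inr ())
      simp only [φ, Sum.elim_inr, add_right_inj] at h1
      cases p using OnePoint.rec with
      | infty =>
        cases p' using OnePoint.rec with
        | infty => rfl
        | coe n =>
          exfalso
          simp only [OnePoint.elim_infty, OnePoint.elim_some] at h1
          have : (0 : ℝ) < 1 / ((n : ℝ) + 1) := by positivity
          linarith
      | coe m =>
        cases p' using OnePoint.rec with
        | infty =>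
          exfalso
          simp only [OnePoint.elim_infty, OnePoint.elim_some] at h1
          have : (0 : ℝ) < 1 / ((m : ℝ) + 1) := by positivity
          linarith
        | coe n =>
          simp only [OnePoint.elim_some] at h1
          have h2 : (m : ℝ) + 1 = n + 1 := by
            have hm : (0 : ℝ) < (m : ℝ) + 1 := by positivity
            have hn : (0 : ℝ) < (n : ℝ) + 1 := by positivity
            field_simp at h1
            linarith
          have h3 : m = n := by exact_mod_cast add_right_cancel h2
          rw [h3]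
  · rintro (l | p)
    · obtain ⟨z, hz⟩ := exists_branch d l
      have hI : {i : I | l.1.1 (Sum.inl i) ≠ 0}.Countable := (H z).mono fun i hi => hz i hi
      have : {γ | φ (Sum.inl l) γ ≠ 0} ⊆
          (fun i => Sum.inl (Sum.inl i)) '' {i : I | l.1.1 (Sum.inl i) ≠ 0} ∪
          (fun t : T ⊕ T => Sum.inl (Sum.inr t)) '' univ := by
        rintro ((i | t) | u) hγ
        · left; exact ⟨i, hγ, rfl⟩
        · right; exact ⟨t, trivial, rfl⟩
        · exact absurd rfl hγ
      exact ((hI.image _).union (countable_univ.image _)).mono this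
    · have : {γ | φ (Sum.inr p) γ ≠ 0} ⊆ (fun u : Unit => Sum.inr u) '' univ := by
        rintro (o | u) hγ
        · exact absurd rfl hγ
        · exact ⟨u, trivial, rfl⟩
      exact (countable_univ.image _).mono this

/-- A separable Corson compact space is second countable. -/
lemma secondCountable_of_corson {X : Type} [TopologicalSpace X] (hX : IsCorson X)
    {D : ℕ → X} (hD : DenseRange D) : SecondCountableTopology X := by
  obtain ⟨hcomp, Γ, φ, hφ, hs⟩ := hX
  have hc0 : (⋃ n, {γ | φ (D n) γ ≠ 0}).Countable := countable_iUnion fun n => hs (D n)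
  set Γ0 : Set Γ := ⋃ n, {γ | φ (D n) γ ≠ 0} with hΓ0
  have hzero : ∀ γ, γ ∉ Γ0 → ∀ x, φ x γ = 0 := by
    intro γ hγ x
    have hcl : IsClosed {x | φ x γ = 0} :=
      isClosed_eq ((continuous_apply γ).comp hφ.continuous) continuous_const
    have hsub : range D ⊆ {x | φ x γ = 0} := by
      rintro _ ⟨n, rfl⟩
      by_contra h
      exact hγ (mem_iUnion.mpr ⟨n, h⟩)
    have := closure_minimal hsub hcl
    rw [hD.closure_eq] at this
    exact this (mem_univ x)
  have : Countable Γ0 := hc0.to_subtype
  let ψ : X → (Γ0 → ℝ) := fun x γ => φ x γ.1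
  have hψc : Continuous ψ :=
    continuous_pi fun γ => (continuous_apply γ.1).comp hφ.continuous
  have hψi : Function.Injective ψ := by
    intro x y hxy
    apply hφ.injective
    funext γ
    by_cases h : γ ∈ Γ0
    · exact congrFun hxy ⟨γ, h⟩
    · rw [hzero γ h, hzero γ h]
  exact (hψc.isClosedEmbedding hψi).isEmbedding.secondCountableTopology

lemma countable_clopens {X : Type} [TopologicalSpace X] [CompactSpace X]
    [SecondCountableTopology X] : {U : Set X | IsClopen U}.Countable := by
  have hb := TopologicalSpace.isBasis_countableBasis X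
  have hfin : {t : Set (Set X) | t.Finite ∧ t ⊆ TopologicalSpace.countableBasis X}.Countable :=
    Set.countable_ofPred_finite_subset (TopologicalSpace.countable_countableBasis X)
  refine (hfin.image sUnion).mono ?_
  intro U hU
  obtain ⟨t, ht⟩ := eq_sUnion_finset_of_isTopologicalBasis_of_isCompact_open _ hb U
    hU.1.isCompact hU.2
  refine ⟨Subtype.val '' (t : Set (TopologicalSpace.countableBasis X)), ⟨?_, ?_⟩, ?_⟩
  · exact t.finite_toSet.image _
  · rintro _ ⟨x, _, rfl⟩; exact x.2
  · rw [ht]

/-- the node of level `n` of the branch `z` -/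
def nodeOf (z : ℕ → ℕ) : ℕ → List ℕ
  | 0 => []
  | (n + 1) => z n :: nodeOf z n

lemma length_nodeOf (z : ℕ → ℕ) (n : ℕ) : (nodeOf z n).length = n := by
  induction n with
  | zero => rfl
  | succ n ih => simp [nodeOf, ih]

lemma legal_nodeOf {z : ℕ → ℕ} (hz : ∀ n, z n ≤ 1) (n : ℕ) : Legal (nodeOf z n) := by
  induction n with
  | zero => trivial
  | succ n ih =>
    refine ⟨?_, ih⟩
    have h1 := hz n
    have h2 : 2 ^ 1 ≤ 2 ^ ((nodeOf z n).length + 1) := Nat.pow_le_pow_right (by norm_num) (by omega)
    omega

lemma avoids_nodeOf {z e : ℕ → ℕ} (hz : ∀ n, z n ≠ e n) (n : ℕ) : Avoids e (nodeOf z n) := by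
  induction n with
  | zero => trivial
  | succ n ih =>
    refine ⟨?_, ih⟩
    rw [length_nodeOf]
    exact hz n

/-- `K` is not Corson. -/
lemma not_isCorson_K [Uncountable I] (H : ∀ z : ℕ → ℕ, {i | ∀ j, d i j ≠ z j}.Countable) :
    ¬ IsCorson (KSet d) := by
  intro hK
  have hD : DenseRange (fun n => wK d (en n)) := by
    have h1 : range (fun n => wK d (en n)) = range (wK d) := en.surjective.range_comp (wK d)
    rw [DenseRange, h1]
    exact denseRange_wK d
  have hsc : SecondCountableTopology (KSet d) := secondCountable_of_corson hK hD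
  have hcl := countable_clopens (X := KSet d)
  set F : I → Set (KSet d) := fun i => {k | k.1 (Sum.inl i) ≠ 0} with hF
  have hFc : ∀ i, IsClopen (F i) := by
    intro i
    refine ⟨?_, isOpen_coord_ne d _⟩
    have : F i = {k | k.1 (Sum.inl i) = 1} := by
      ext k
      rcases KSet_val d k.2 (Sum.inl i) with h | h
      · simp [hF, h]
      · simp [hF, h]
    rw [this]
    exact isClosed_eq ((continuous_apply _).comp continuous_subtype_val) continuous_const
  have huniv : (univ : Set I).Countable := by
    have hsub : (univ : Set I) ⊆ ⋃ U ∈ {U : Set (KSet d) | IsClopen U}, {i | F i = U} := by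
      intro i _
      simp only [mem_iUnion]
      exact ⟨F i, hFc i, rfl⟩
    refine (hcl.biUnion fun U _ => ?_).mono hsub
    by_cases hne : {i | F i = U}.Nonempty
    · obtain ⟨i0, hi0⟩ := hne
      let z : ℕ → ℕ := fun j => if d i0 j = 0 then 1 else 0
      have hz1 : ∀ n, z n ≤ 1 := by
        intro n; simp only [z]; split_ifs <;> omega
      have hz2 : ∀ n, z n ≠ d i0 n := by
        intro n; simp only [z]; split_ifs with h
        · omega
        · exact fun h' => h h'.symm
      refine (H z).mono fun i (hi : F i = U) => ?_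
      intro j
      have hnode : wK d ⟨nodeOf z (j + 1), legal_nodeOf hz1 _⟩ ∈ F i := by
        have h1 : F i = F i0 := hi.trans hi0.symm
        rw [h1]
        change w d ⟨nodeOf z (j + 1), legal_nodeOf hz1 _⟩ (Sum.inl i0) ≠ 0
        simp only [w]
        rw [if_pos (avoids_nodeOf hz2 _)]
        exact one_ne_zero
      have h2 : w d ⟨nodeOf z (j + 1), legal_nodeOf hz1 _⟩ (Sum.inl i) ≠ 0 := hnode
      simp only [w, ne_eq, ite_eq_right_iff, one_ne_zero, imp_false, not_not] at h2
      have h3 := h2.1
      rw [length_nodeOf] at h3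
      exact h3.symm
    · rw [not_nonempty_iff_eq_empty] at hne
      rw [hne]; exact countable_empty
  exact not_countable (α := I) (countable_univ_iff.mp huniv)

/-- (*) fails as soon as there is an uncountable Luzin-type family. -/
theorem not_AMN_of_family [Uncountable I]
    (H : ∀ z : ℕ → ℕ, {i | ∀ j, d i j ≠ z j}.Countable) : ¬ AMNStatement := by
  intro h
  exact not_isCorson_K d H (h (LSet d ⊕ OnePoint ℕ) (KSet d) (isCorson_L d H)
    ⟨op d, 1 / 2, by norm_num, op_lower d⟩)

/-- Under CH there is such a family. -/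
theorem exists_family (hCH : Cardinal.continuum.{0} = Cardinal.aleph.{0} 1) :
    ∃ d : (ℕ → ℕ) → ℕ → ℕ, ∀ z : ℕ → ℕ, {i | ∀ j, d i j ≠ z j}.Countable := by
  have hcard : Cardinal.mk (ℕ → ℕ) = Cardinal.aleph 1 := by
    rw [← hCH]; simp
  obtain ⟨r, wo, hr⟩ := Cardinal.exists_ord_eq (ℕ → ℕ)
  have hcount : ∀ x, {y | r y x}.Countable := by
    intro x
    have h1 := Cardinal.card_typein_lt (r := r) x hr
    rw [Ordinal.card_typein, hcard, Cardinal.lt_aleph_one_iff] at h1
    exact Cardinal.le_aleph0_iff_set_countable.mp h1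
  have henum : ∀ x, ∃ e : ℕ → (ℕ → ℕ), ∀ y, r y x → ∃ n, e n = y := by
    intro x
    rcases ({y | r y x}).eq_empty_or_nonempty with h | h
    · refine ⟨fun _ _ => 0, fun y hy => ?_⟩
      have : y ∈ {y | r y x} := hy
      rw [h] at this
      exact this.elim
    · obtain ⟨e, he⟩ := (hcount x).exists_eq_range h
      refine ⟨e, fun y hy => ?_⟩
      have : y ∈ {y | r y x} := hy
      rw [he] at this
      exact this
  choose e he using henum
  refine ⟨fun x j => e x j j, fun z => ?_⟩
  have hsub : {x | ∀ j, (fun x j => e x j j) x j ≠ z j} ⊆ {y | r y z} ∪ {z} := by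
    intro x hx
    rcases trichotomous_of r x z with h | h | h
    · left; exact h
    · right; exact h
    · exfalso
      obtain ⟨n, hn⟩ := he x z h
      exact hx n (by simp only; rw [hn])
  exact ((hcount z).union (countable_singleton z)).mono hsub

/-- (*) implies the failure of CH. -/
theorem aleph_one_lt_continuum_of_AMN (h : AMNStatement) :
    Cardinal.aleph.{0} 1 < Cardinal.continuum.{0} := by
  by_contra hlt
  have hCH : Cardinal.continuum.{0} = Cardinal.aleph.{0} 1 :=
    le_antisymm (not_lt.mp hlt) Cardinal.aleph_one_le_continuum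
  obtain ⟨d, hd⟩ := exists_family hCH
  have : Uncountable (ℕ → ℕ) := by
    rw [← Cardinal.aleph0_lt_mk_iff]
    have h1 : Cardinal.mk (ℕ → ℕ) = Cardinal.continuum := by simp
    rw [h1]
    exact Cardinal.aleph0_lt_continuum
  exact not_AMN_of_family d hd h

end Pool.Agent.Lib.MP_9ea9ae_an
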